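import Pool.Agent.Helper19.Qh.Stmts

set_option autoImplicit false

/-!
# Integrals of horizontal derivatives over the cell vanish (quaternionic case)
-/

namespace Pool.Agent.Helper19.Qh

open MeasureTheory Topology Set
open scoped ComplexConjugate

noncomputable section

/-! ### General facts on periodic functions -/

/-- integral of a derivative of a periodic function -/
theorem div_int_deriv_succ {n : ℕ} {H : (Fin (n + 1) → ℝ) → ℂ} (hH : ContDiff ℝ 1 H)
    (i : Fin (n + 1)) (hp : ∀ x, H (x + Pi.single i 1) = H x) :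
    ∫ x in Icc (0 : Fin (n + 1) → ℝ) 1, fderiv ℝ H x (Pi.single i 1) = 0 := by
  have hc : Continuous (fun x => fderiv ℝ H x (Pi.single i 1)) :=
    (hH.continuous_fderiv one_ne_zero).clm_apply continuous_const
  have hs : ∀ x : Fin (n + 1) → ℝ, ∑ j, (if j = i then fderiv ℝ H x else 0) (Pi.single j 1) =
      fderiv ℝ H x (Pi.single i 1) := by
    intro x
    rw [Finset.sum_eq_single i]
    · rw [if_pos rfl]
    · intro j _ hj
      rw [if_neg hj]
      rfl
    · intro h
      exact absurd (Finset.mem_univ i) h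
  have key := integral_divergence_of_hasFDerivAt_off_countable' (n := n) (E := ℂ)
    (0 : Fin (n + 1) → ℝ) 1 (by intro j; simp) (fun j => if j = i then H else fun _ => 0)
    (fun j x => if j = i then fderiv ℝ H x else 0) ∅ countable_empty
    (by
      intro j
      by_cases hj : j = i
      · simp only [if_pos hj]
        exact hH.continuous.continuousOn
      · simp only [if_neg hj]
        exact continuousOn_const)
    (by
      intro x _ j
      by_cases hj : j = i
      · simp only [if_pos hj]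
        exact (hH.differentiable (by norm_num) x).hasFDerivAt
      · simp only [if_neg hj]
        exact hasFDerivAt_const _ _)
    (by
      simp only [hs]
      exact hc.continuousOn.integrableOn_compact isCompact_Icc)
  simp only [hs] at key
  rw [key]
  apply Finset.sum_eq_zero
  intro j _
  by_cases hj : j = i
  · subst hj
    rw [sub_eq_zero]
    congr 1
    funext y
    simp only [if_true]
    have e : (j.insertNth ((1 : Fin (n + 1) → ℝ) j) y : Fin (n + 1) → ℝ)
        = (j.insertNth ((0 : Fin (n + 1) → ℝ) j) y : Fin (n + 1) → ℝ) + Pi.single j 1 := by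
      funext l
      refine Fin.succAboveCases j ?_ ?_ l
      · simp
      · intro l
        simp
    exact (congrArg H e).trans (hp _)
  · simp only [if_neg hj]
    simp

/-- integral of a directional derivative of a periodic function -/
theorem div_int_deriv {n : ℕ} {H : (Fin n → ℝ) → ℂ} (hH : ContDiff ℝ 1 H)
    (hp : ∀ (i : Fin n) x, H (x + Pi.single i 1) = H x) (v : Fin n → ℝ) :
    ∫ x in Icc (0 : Fin n → ℝ) 1, fderiv ℝ H x v = 0 := by
  have e1 : ∀ x, fderiv ℝ H x v = ∑ i, v i • fderiv ℝ H x (Pi.single i 1) := by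
    intro x
    have h1 : v = ∑ i, v i • (Pi.single i 1 : Fin n → ℝ) := by
      funext j
      rw [Finset.sum_apply]
      simp [Pi.single_apply]
    conv_lhs => rw [h1]
    rw [map_sum]
    refine Finset.sum_congr rfl fun i _ => ?_
    rw [map_smul]
  simp only [e1]
  rw [integral_finsetSum]
  · refine Finset.sum_eq_zero fun i _ => ?_
    rw [integral_smul]
    cases n with
    | zero => exact i.elim0
    | succ n => rw [div_int_deriv_succ hH i (hp i), smul_zero]
  · intro i _
    have hc0 : Continuous (fun x => fderiv ℝ H x (Pi.single i 1)) :=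
      (hH.continuous_fderiv one_ne_zero).clm_apply continuous_const
    have hc : Continuous (fun x => v i • fderiv ℝ H x (Pi.single i 1)) := hc0.const_smul (v i)
    exact hc.continuousOn.integrableOn_compact isCompact_Icc

/-- the central average -/
def div_av {n k : ℕ} (G : (Fin n → ℝ) × (Fin k → ℝ) → ℂ) (y : Fin n → ℝ) : ℂ :=
  ∫ t in Icc (0 : Fin k → ℝ) 1, G (y, t)

theorem div_hasFDerivAt_av {n k : ℕ} {G : (Fin n → ℝ) × (Fin k → ℝ) → ℂ} (hG : ContDiff ℝ 1 G)
    (y : Fin n → ℝ) : HasFDerivAt (div_av G)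
      (∫ t in Icc (0 : Fin k → ℝ) 1,
        (fderiv ℝ G (y, t)).comp (ContinuousLinearMap.inl ℝ (Fin n → ℝ) (Fin k → ℝ))) y := by
  have hfd : Continuous (fderiv ℝ G) := hG.continuous_fderiv one_ne_zero
  have hK : IsCompact (Metric.closedBall y 1 ×ˢ Icc (0 : Fin k → ℝ) 1) :=
    (isCompact_closedBall y 1).prod isCompact_Icc
  have hF' : Continuous (fun p : (Fin n → ℝ) × (Fin k → ℝ) =>
      (fderiv ℝ G p).comp (ContinuousLinearMap.inl ℝ (Fin n → ℝ) (Fin k → ℝ))) :=
    hfd.clm_comp continuous_const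
  obtain ⟨C, hC⟩ := hK.exists_bound_of_continuousOn hF'.continuousOn
  unfold div_av
  refine hasFDerivAt_integral_of_dominated_of_fderiv_le
    (μ := volume.restrict (Icc (0 : Fin k → ℝ) 1))
    (F' := fun x t => (fderiv ℝ G (x, t)).comp
      (ContinuousLinearMap.inl ℝ (Fin n → ℝ) (Fin k → ℝ)))
    (bound := fun _ => C) (Metric.closedBall_mem_nhds y one_pos) ?_ ?_ ?_ ?_ ?_ ?_
  · apply Filter.Eventually.of_forall
    intro x
    exact (hG.continuous.comp (Continuous.prodMk_right x)).aestronglyMeasurable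
  · exact (hG.continuous.comp (Continuous.prodMk_right y)).continuousOn.integrableOn_compact
      isCompact_Icc
  · exact (hF'.comp (Continuous.prodMk_right y)).aestronglyMeasurable
  · rw [ae_restrict_iff' measurableSet_Icc]
    apply Filter.Eventually.of_forall
    intro t ht x hx
    exact hC (x, t) ⟨hx, ht⟩
  · exact continuous_const.continuousOn.integrableOn_compact isCompact_Icc
  · apply Filter.Eventually.of_forall
    intro t x hx
    have h1 : HasFDerivAt G (fderiv ℝ G (x, t)) (x, t) :=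
      (hG.differentiable one_ne_zero (x, t)).hasFDerivAt
    have h2 : HasFDerivAt (fun x : Fin n → ℝ => (x, t))
      (ContinuousLinearMap.inl ℝ (Fin n → ℝ) (Fin k → ℝ)) x := hasFDerivAt_prodMk_left x t
    exact h1.comp x h2

theorem div_contDiff_av {n k : ℕ} {G : (Fin n → ℝ) × (Fin k → ℝ) → ℂ} (hG : ContDiff ℝ 1 G) :
    ContDiff ℝ 1 (div_av G) := by
  rw [contDiff_one_iff_fderiv]
  refine ⟨fun y => (div_hasFDerivAt_av hG y).differentiableAt, ?_⟩
  have h1 : fderiv ℝ (div_av G) = fun y =>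
      ∫ t in Icc (0 : Fin k → ℝ) 1,
        (fderiv ℝ G (y, t)).comp (ContinuousLinearMap.inl ℝ (Fin n → ℝ) (Fin k → ℝ)) := by
    funext y
    exact (div_hasFDerivAt_av hG y).fderiv
  rw [h1]
  have hfd : Continuous (fderiv ℝ G) := hG.continuous_fderiv one_ne_zero
  exact continuous_parametric_integral_of_continuous
    (f := fun (y : Fin n → ℝ) (t : Fin k → ℝ) =>
      (fderiv ℝ G (y, t)).comp (ContinuousLinearMap.inl ℝ (Fin n → ℝ) (Fin k → ℝ)))
    ((hfd.comp continuous_id).clm_comp continuous_const) isCompact_Icc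

theorem div_fderiv_av {n k : ℕ} {G : (Fin n → ℝ) × (Fin k → ℝ) → ℂ} (hG : ContDiff ℝ 1 G)
    (y v : Fin n → ℝ) :
    fderiv ℝ (div_av G) y v = ∫ t in Icc (0 : Fin k → ℝ) 1, fderiv ℝ G (y, t) (v, 0) := by
  rw [(div_hasFDerivAt_av hG y).fderiv]
  have hfd : Continuous (fderiv ℝ G) := hG.continuous_fderiv one_ne_zero
  rw [ContinuousLinearMap.integral_apply]
  · rfl
  · have h1 : Continuous (fun t : Fin k → ℝ =>
        (fderiv ℝ G (y, t)).comp (ContinuousLinearMap.inl ℝ (Fin n → ℝ) (Fin k → ℝ))) :=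
      (hfd.comp (Continuous.prodMk_right y)).clm_comp continuous_const
    exact h1.continuousOn.integrableOn_compact isCompact_Icc

theorem div_central {n k : ℕ} {G : (Fin n → ℝ) × (Fin k → ℝ) → ℂ} (hG : ContDiff ℝ 1 G)
    (hp : ∀ (j : Fin k) y t, G (y, t + Pi.single j 1) = G (y, t)) (y : Fin n → ℝ)
    (s : Fin k → ℝ) : ∫ t in Icc (0 : Fin k → ℝ) 1, fderiv ℝ G (y, t) (0, s) = 0 := by
  have hH : ContDiff ℝ 1 (fun t : Fin k → ℝ => G (y, t)) :=
    hG.comp (contDiff_const.prodMk contDiff_id)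
  have h1 := div_int_deriv hH (fun j t => hp j y t) s
  rw [← h1]
  refine integral_congr_ae (Filter.Eventually.of_forall fun t => ?_)
  beta_reduce
  have h2 : HasFDerivAt G (fderiv ℝ G (y, t)) (y, t) :=
    (hG.differentiable one_ne_zero (y, t)).hasFDerivAt
  have h3 : HasFDerivAt (fun t : Fin k → ℝ => (y, t))
    (ContinuousLinearMap.inr ℝ (Fin n → ℝ) (Fin k → ℝ)) t := hasFDerivAt_prodMk_right y t
  have h4 : fderiv ℝ (fun t : Fin k → ℝ => G (y, t)) t = _ := (h2.comp t h3).fderiv
  rw [h4]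
  rfl

/-- the integral over the cell is invariant under translations -/
theorem div_shift {k : ℕ} {H : (Fin k → ℝ) → ℂ} (hH : ContDiff ℝ 1 H)
    (hp : ∀ (j : Fin k) t, H (t + Pi.single j 1) = H t) (r : Fin k → ℝ) :
    ∫ t in Icc (0 : Fin k → ℝ) 1, H (t + r) = ∫ t in Icc (0 : Fin k → ℝ) 1, H t := by
  have hG : ContDiff ℝ 1 (fun p : (Fin k → ℝ) × (Fin k → ℝ) => H (p.2 + p.1)) :=
    hH.comp (contDiff_snd.add contDiff_fst)
  have h0 : ∀ y, fderiv ℝ (div_av (fun p : (Fin k → ℝ) × (Fin k → ℝ) => H (p.2 + p.1))) y = 0 := by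
    intro y
    ext v
    rw [div_fderiv_av hG]
    have hHy : ContDiff ℝ 1 (fun t : Fin k → ℝ => H (t + y)) :=
      hH.comp (contDiff_id.add contDiff_const)
    have h1 := div_int_deriv hHy (fun j t => by
      have e : t + Pi.single j 1 + y = t + y + Pi.single j 1 := by abel
      rw [e]
      exact hp j _) v
    change _ = (0 : ℂ)
    rw [← h1]
    refine integral_congr_ae (Filter.Eventually.of_forall fun t => ?_)
    beta_reduce
    have d0 : HasFDerivAt H (fderiv ℝ H (t + y)) (t + y) :=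
      (hH.differentiable one_ne_zero (t + y)).hasFDerivAt
    have d1 : HasFDerivAt (fun p : (Fin k → ℝ) × (Fin k → ℝ) => p.2 + p.1)
        (ContinuousLinearMap.snd ℝ (Fin k → ℝ) (Fin k → ℝ) +
          ContinuousLinearMap.fst ℝ (Fin k → ℝ) (Fin k → ℝ)) (y, t) :=
      hasFDerivAt_snd.add hasFDerivAt_fst
    have d2 : HasFDerivAt (fun t : Fin k → ℝ => t + y)
        (ContinuousLinearMap.id ℝ (Fin k → ℝ)) t := (hasFDerivAt_id t).add_const y
    have e1 : fderiv ℝ (fun p : (Fin k → ℝ) × (Fin k → ℝ) => H (p.2 + p.1)) (y, t) = _ :=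
      (HasFDerivAt.comp (y, t) (g := H) d0 d1).fderiv
    have e2 : fderiv ℝ (fun t : Fin k → ℝ => H (t + y)) t = _ :=
      (HasFDerivAt.comp t (g := H) d0 d2).fderiv
    rw [e1, e2]
    change fderiv ℝ H (t + y) (0 + v) = fderiv ℝ H (t + y) v
    rw [zero_add]
  have h2 := is_const_of_fderiv_eq_zero (𝕜 := ℝ)
    ((div_contDiff_av hG).differentiable one_ne_zero) h0 r 0
  unfold div_av at h2
  beta_reduce at h2
  simp only [add_zero] at h2
  exact h2

/-- Fubini on the cell -/
theorem div_fubini {n k : ℕ} {F : (Fin n → ℝ) × (Fin k → ℝ) → ℂ} (hF : Continuous F) :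
    ∫ x in Icc (0 : (Fin n → ℝ) × (Fin k → ℝ)) 1, F x
      = ∫ y in Icc (0 : Fin n → ℝ) 1, ∫ t in Icc (0 : Fin k → ℝ) 1, F (y, t) := by
  have h1 : Icc (0 : (Fin n → ℝ) × (Fin k → ℝ)) 1
      = Icc (0 : Fin n → ℝ) 1 ×ˢ Icc (0 : Fin k → ℝ) 1 := by
    rw [Icc_prod_Icc]
    rfl
  rw [h1, Measure.volume_eq_prod, setIntegral_prod]
  rw [← Measure.volume_eq_prod]
  exact hF.continuousOn.integrableOn_compact (isCompact_Icc.prod isCompact_Icc)

/-- the derivative of a function on the cell along a field `(v, s y)` integrates to zero -/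
theorem div_cell {n k : ℕ} {G : (Fin n → ℝ) × (Fin k → ℝ) → ℂ} (hG : ContDiff ℝ 1 G)
    (hp : ∀ (j : Fin k) y t, G (y, t + Pi.single j 1) = G (y, t))
    (hq : ∀ (i : Fin n) (y : Fin n → ℝ), ∃ r : Fin k → ℝ,
      ∀ t, G (y + Pi.single i 1, t) = G (y, t + r))
    (v : Fin n → ℝ) {s : (Fin n → ℝ) → (Fin k → ℝ)} (hs : Continuous s) :
    ∫ x in Icc (0 : (Fin n → ℝ) × (Fin k → ℝ)) 1, fderiv ℝ G x (v, s x.1) = 0 := by
  have hfd : Continuous (fderiv ℝ G) := hG.continuous_fderiv one_ne_zero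
  rw [div_fubini (hfd.clm_apply (by fun_prop))]
  have h1 : ∀ y, ∫ t in Icc (0 : Fin k → ℝ) 1, fderiv ℝ G (y, t) (v, s y)
      = fderiv ℝ (div_av G) y v := by
    intro y
    rw [div_fderiv_av hG]
    have h2 : ∀ t, fderiv ℝ G (y, t) (v, s y)
        = fderiv ℝ G (y, t) (v, 0) + fderiv ℝ G (y, t) (0, s y) := by
      intro t
      rw [← map_add]
      congr 1
      simp
    simp only [h2]
    rw [integral_add, div_central hG hp, add_zero]
    · have h3 : Continuous (fun t : Fin k → ℝ => fderiv ℝ G (y, t) (v, 0)) :=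
        (hfd.comp (Continuous.prodMk_right y)).clm_apply continuous_const
      exact h3.continuousOn.integrableOn_compact isCompact_Icc
    · have h3 : Continuous (fun t : Fin k → ℝ => fderiv ℝ G (y, t) (0, s y)) :=
        (hfd.comp (Continuous.prodMk_right y)).clm_apply continuous_const
      exact h3.continuousOn.integrableOn_compact isCompact_Icc
  simp only [h1]
  apply div_int_deriv (div_contDiff_av hG)
  intro i y
  obtain ⟨r, hr⟩ := hq i y
  unfold div_av
  simp only [hr]
  exact div_shift (H := fun t => G (y, t)) (hG.comp (contDiff_const.prodMk contDiff_id))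
    (fun j t => hp j y t) r

/-! ### Coordinates on the horosphere -/

variable {m : ℕ}

/-- the linear map `x ↦ ∑ xᵢ βᵢ` -/
def div_L {W : Type} [NormedAddCommGroup W] [NormedSpace ℝ W] {n : ℕ} (β : Fin n → W) :
    (Fin n → ℝ) →L[ℝ] W :=
  ∑ i, (ContinuousLinearMap.proj i : (Fin n → ℝ) →L[ℝ] ℝ).smulRight (β i)

theorem div_L_apply {W : Type} [NormedAddCommGroup W] [NormedSpace ℝ W] {n : ℕ} (β : Fin n → W)
    (x : Fin n → ℝ) : div_L β x = ∑ i, x i • β i := by
  unfold div_L
  rw [sum_apply]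
  rfl

theorem div_L_single {W : Type} [NormedAddCommGroup W] [NormedSpace ℝ W] {n : ℕ}
    (β : Fin n → W) (i : Fin n) : div_L β (Pi.single i 1) = β i := by
  rw [div_L_apply, Finset.sum_eq_single i]
  · simp
  · intro j _ hj
    simp [Pi.single_eq_of_ne hj]
  · intro h
    exact absurd (Finset.mem_univ i) h

theorem div_cellpt (β : Fin (4 * m) → E m) (γ : Fin 3 → Q)
    (x : (Fin (4 * m) → ℝ) × (Fin 3 → ℝ)) (u : ℝ) :
    cellpt β γ x u = ((-(u + ‖div_L β x.1‖ ^ 2) / 2) • (1 : Q) + div_L γ x.2,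
      div_L β x.1) := by
  rw [div_L_apply, div_L_apply]
  unfold cellpt
  refine Prod.ext ?_ rfl
  beta_reduce
  congr 1
  rw [← Quaternion.coe_mul_eq_smul, mul_one]

theorem div_cellpt_mem (β : Fin (4 * m) → E m) {γ : Fin 3 → Q} (hγ : ∀ j, (γ j).re = 0)
    (x : (Fin (4 * m) → ℝ) × (Fin 3 → ℝ)) {u : ℝ} (hu : 0 < u) : cellpt β γ x u ∈ SD m := by
  change 0 < hgt (cellpt β γ x u)
  rw [hgt_cellpt β hγ]
  exact hu

theorem div_contDiff_cellpt (β : Fin (4 * m) → E m) (γ : Fin 3 → Q) (u : ℝ) :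
    ContDiff ℝ 2 (fun x => cellpt β γ x u) := by
  have hL : ContDiff ℝ 2 (fun x : (Fin (4 * m) → ℝ) × (Fin 3 → ℝ) => div_L β x.1) :=
    (div_L β).contDiff.comp contDiff_fst
  have hC : ContDiff ℝ 2 (fun x : (Fin (4 * m) → ℝ) × (Fin 3 → ℝ) => div_L γ x.2) :=
    (div_L γ).contDiff.comp contDiff_snd
  simp only [div_cellpt]
  refine ContDiff.prodMk (ContDiff.add ?_ hC) hL
  exact (((contDiff_const.add (hL.norm_sq ℝ)).neg).div_const 2).smul contDiff_const

theorem div_fderiv_cellpt (β : Fin (4 * m) → E m) (γ : Fin 3 → Q) (u : ℝ)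
    (p v : (Fin (4 * m) → ℝ) × (Fin 3 → ℝ)) :
    fderiv ℝ (fun x => cellpt β γ x u) p v =
      ((-(hin (div_L β p.1) (div_L β v.1)).re) • (1 : Q) + div_L γ v.2, div_L β v.1) := by
  have hd : DifferentiableAt ℝ (fun x => cellpt β γ x u) p :=
    (div_contDiff_cellpt β γ u).differentiable (by norm_num) p
  have h1 : HasDerivAt (fun s : ℝ => p + s • v) v 0 := by
    have := ((hasDerivAt_id (0 : ℝ)).smul_const v).const_add p
    simpa using this
  have h2 : HasDerivAt (fun s : ℝ => cellpt β γ (p + s • v) u)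
      (fderiv ℝ (fun x => cellpt β γ x u) p v) 0 := by
    have h3 : HasFDerivAt (fun x => cellpt β γ x u) (fderiv ℝ (fun x => cellpt β γ x u) p)
        (p + (0 : ℝ) • v) := by
      rw [zero_smul, add_zero]
      exact hd.hasFDerivAt
    exact h3.comp_hasDerivAt (0 : ℝ) h1
  have e1 : ∀ s : ℝ, div_L β (p + s • v).1 = div_L β p.1 + s • div_L β v.1 := by
    intro s
    change div_L β (p.1 + s • v.1) = _
    rw [map_add, map_smul]
  have e2 : ∀ s : ℝ, div_L γ (p + s • v).2 = div_L γ p.2 + s • div_L γ v.2 := by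
    intro s
    change div_L γ (p.2 + s • v.2) = _
    rw [map_add, map_smul]
  have e3 : ∀ s : ℝ, ‖div_L β p.1 + s • div_L β v.1‖ ^ 2 = ‖div_L β p.1‖ ^ 2 +
      2 * (s * (hin (div_L β p.1) (div_L β v.1)).re) + s ^ 2 * ‖div_L β v.1‖ ^ 2 := by
    intro s
    rw [norm_add_sq_c, hin_rsmul_right, Quaternion.re_smul, norm_smul, mul_pow]
    simp
  have h4 : HasDerivAt (fun s : ℝ => cellpt β γ (p + s • v) u)
      ((-(hin (div_L β p.1) (div_L β v.1)).re) • (1 : Q) + div_L γ v.2, div_L β v.1) 0 := by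
    simp only [div_cellpt, e1, e2, e3]
    have d0 : HasDerivAt (fun s : ℝ => s) 1 0 := hasDerivAt_id 0
    apply HasDerivAt.prodMk
    · apply HasDerivAt.add
      · have h5 : HasDerivAt (fun s : ℝ => -(u + (‖div_L β p.1‖ ^ 2 +
            2 * (s * (hin (div_L β p.1) (div_L β v.1)).re) + s ^ 2 * ‖div_L β v.1‖ ^ 2)) / 2)
            (-(hin (div_L β p.1) (div_L β v.1)).re) 0 := by
          have h6 := ((((((d0.mul_const (hin (div_L β p.1) (div_L β v.1)).re).const_mul
            2).const_add (‖div_L β p.1‖ ^ 2)).add ((d0.pow 2).mul_const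
              (‖div_L β v.1‖ ^ 2))).const_add u).neg).div_const 2
          refine h6.congr_deriv ?_
          simp
          ring
        exact h5.smul_const (1 : Q)
      · have := (d0.smul_const (div_L γ v.2)).const_add (div_L γ p.2)
        simpa using this
    · have := (d0.smul_const (div_L β v.1)).const_add (div_L β p.1)
      simpa using this
  exact h2.unique h4

theorem div_finrank : Module.finrank ℝ (E m) = 4 * m := by
  have h1 : Module.finrank ℝ (E m) = Module.finrank ℝ (Fin m → Q) :=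
    (WithLp.linearEquiv 2 ℝ (Fin m → Q)).finrank_eq
  rw [h1, Module.finrank_pi_fintype, Finset.sum_const, Quaternion.finrank_eq_four,
    Finset.card_univ, Fintype.card_fin, smul_eq_mul, mul_comm]

/-- every vector is a real combination of the basis -/
theorem div_coord {β : Fin (4 * m) → E m} (hβ : LinearIndependent ℝ β) (v : E m) :
    ∃ α : Fin (4 * m) → ℝ, div_L β α = v := by
  have h1 : Submodule.span ℝ (Set.range β) = ⊤ := by
    apply hβ.span_eq_top_of_card_eq_finrank'
    rw [Fintype.card_fin, div_finrank]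
  have h2 : v ∈ Submodule.span ℝ (Set.range β) := by
    rw [h1]
    trivial
  rw [Submodule.mem_span_range_iff_exists_fun] at h2
  obtain ⟨α, hα⟩ := h2
  exact ⟨α, by rw [div_L_apply]; exact hα⟩

theorem div_L_re {γ : Fin 3 → Q} (hγ : ∀ j, (γ j).re = 0) (t : Fin 3 → ℝ) :
    (div_L γ t).re = 0 := by
  rw [div_L_apply]
  exact re_sum_im γ hγ t

/-- imaginary quaternions are combinations of `γ` -/
theorem div_imag {γ : Fin 3 → Q} (hγ : ∀ j, (γ j).re = 0) (hl : LinearIndependent ℝ γ) {q : Q}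
    (hq : q.re = 0) : ∃ t : Fin 3 → ℝ, div_L γ t = q := by
  have h1 : (1 : Q) ∉ Submodule.span ℝ (Set.range γ) := by
    intro h
    rw [Submodule.mem_span_range_iff_exists_fun] at h
    obtain ⟨t, ht⟩ := h
    have h2 := div_L_re hγ t
    rw [div_L_apply, ht, Quaternion.re_one] at h2
    exact one_ne_zero h2
  have h2 : LinearIndependent ℝ (Fin.cons (1 : Q) γ : Fin 4 → Q) :=
    linearIndependent_finCons.2 ⟨hl, h1⟩
  have h3 : Submodule.span ℝ (Set.range (Fin.cons (1 : Q) γ : Fin 4 → Q)) = ⊤ := by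
    apply h2.span_eq_top_of_card_eq_finrank'
    rw [Fintype.card_fin, Quaternion.finrank_eq_four]
  have h4 : q ∈ Submodule.span ℝ (Set.range (Fin.cons (1 : Q) γ : Fin 4 → Q)) := by
    rw [h3]
    trivial
  rw [Submodule.mem_span_range_iff_exists_fun] at h4
  obtain ⟨c, hc⟩ := h4
  rw [Fin.sum_univ_succ] at hc
  simp only [Fin.cons_zero, Fin.cons_succ] at hc
  have h5 : c 0 • (1 : Q) + div_L γ (fun j => c j.succ) = q := by
    rw [div_L_apply]
    exact hc
  have h6 : c 0 = 0 := by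
    have h7 := congrArg (fun q : Q => q.re) h5
    simp only [Quaternion.re_add, Quaternion.re_smul, Quaternion.re_one, div_L_re hγ, hq] at h7
    simpa using h7
  refine ⟨fun j => c j.succ, ?_⟩
  rw [h6, zero_smul, zero_add] at h5
  exact h5

/-- a continuous linear map inverting `div_L γ` on imaginary quaternions -/
theorem div_inv {γ : Fin 3 → Q} (hγ : ∀ j, (γ j).re = 0) (hl : LinearIndependent ℝ γ) :
    ∃ P : Q → (Fin 3 → ℝ), Continuous P ∧ ∀ q : Q, q.re = 0 → div_L γ (P q) = q := by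
  have hinj : LinearMap.ker (div_L γ : (Fin 3 → ℝ) →ₗ[ℝ] Q) = ⊥ := by
    rw [LinearMap.ker_eq_bot']
    intro t ht
    have h1 : ∑ i, t i • γ i = 0 := by
      rw [← div_L_apply]
      exact ht
    funext i
    exact (Fintype.linearIndependent_iff.1 hl) t h1 i
  obtain ⟨P, hP⟩ := LinearMap.exists_leftInverse_of_injective _ hinj
  refine ⟨P, P.continuous_of_finiteDimensional, fun q hq => ?_⟩
  obtain ⟨t, ht⟩ := div_imag hγ hl hq
  have h2 : P (div_L γ t) = t := LinearMap.congr_fun hP t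
  rw [← ht, h2]

/-! ### Functions on the horosphere -/

theorem div_contDiff_lf (β : Fin (4 * m) → E m) {γ : Fin 3 → Q} (hγ : ∀ j, (γ j).re = 0)
    {u : ℝ} (hu : 0 < u) {φ : Pt m → ℂ} (hφ : ContDiffOn ℝ 1 φ (SD m)) :
    ContDiff ℝ 1 (fun x => φ (cellpt β γ x u)) :=
  hφ.comp_contDiff ((div_contDiff_cellpt β γ u).of_le (by norm_num))
    fun x => div_cellpt_mem β hγ x hu

theorem div_fderiv_lf (β : Fin (4 * m) → E m) {γ : Fin 3 → Q} (hγ : ∀ j, (γ j).re = 0)
    {u : ℝ} (hu : 0 < u) {φ : Pt m → ℂ}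
    (hφ : ContDiffOn ℝ 1 φ (SD m)) (p v : (Fin (4 * m) → ℝ) × (Fin 3 → ℝ)) :
    fderiv ℝ (fun x => φ (cellpt β γ x u)) p v = fderiv ℝ φ (cellpt β γ p u)
      ((-(hin (div_L β p.1) (div_L β v.1)).re) • (1 : Q) + div_L γ v.2, div_L β v.1) := by
  have h1 : DifferentiableAt ℝ φ (cellpt β γ p u) :=
    (hφ.contDiffAt (isOpen_SD.mem_nhds (div_cellpt_mem β hγ p hu))).differentiableAt one_ne_zero
  have h2 : DifferentiableAt ℝ (fun x => cellpt β γ x u) p :=
    (div_contDiff_cellpt β γ u).differentiable (by norm_num) p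
  have h3 := (h1.hasFDerivAt.comp p h2.hasFDerivAt).fderiv
  have h4 : fderiv ℝ (fun x => φ (cellpt β γ x u)) p = _ := h3
  rw [h4]
  change fderiv ℝ φ (cellpt β γ p u) (fderiv ℝ (fun x => cellpt β γ x u) p v) = _
  rw [div_fderiv_cellpt]

/-- periodicity in the central direction -/
theorem div_per_t {N : Q → E m → Prop} {β : Fin (4 * m) → E m} {γ : Fin 3 → Q}
    (hN : Cusp N β γ) {u : ℝ} (hu : 0 < u) {φ : Pt m → ℂ} (hi : Per N φ) (j : Fin 3)
    (y : Fin (4 * m) → ℝ) (t : Fin 3 → ℝ) :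
    φ (cellpt β γ (y, t + Pi.single j 1) u) = φ (cellpt β γ (y, t) u) := by
  have h1 : N (γ j) 0 := by
    refine (hN.cen _).2 ⟨Pi.single j 1, ?_⟩
    rw [Finset.sum_eq_single j]
    · simp
    · intro i _ hi
      simp [Pi.single_eq_of_ne hi]
    · intro h
      exact absurd (Finset.mem_univ j) h
  have h2 := hi _ _ h1 _ (div_cellpt_mem β hN.im (y, t) hu)
  rw [← h2]
  congr 1
  rw [act_T, div_cellpt, div_cellpt]
  have h3 : ∀ x : E m, hin x (0 : E m) = 0 := fun x => by simp [hin]
  refine Prod.ext ?_ ?_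
  · simp only [h3, map_add, div_L_single]
    abel
  · simp

/-- translation by a basis vector -/
theorem div_per_i {N : Q → E m → Prop} {β : Fin (4 * m) → E m} {γ : Fin 3 → Q}
    (hN : Cusp N β γ) {u : ℝ} (hu : 0 < u) {φ : Pt m → ℂ} (hi : Per N φ) (i : Fin (4 * m))
    (y : Fin (4 * m) → ℝ) :
    ∃ r : Fin 3 → ℝ,
      ∀ t, φ (cellpt β γ (y + Pi.single i 1, t) u) = φ (cellpt β γ (y, t + r) u) := by
  obtain ⟨a, ha⟩ : ∃ a, N a (β i) := by
    rw [hN.lat]
    refine ⟨Pi.single i 1, ?_⟩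
    rw [Finset.sum_eq_single i]
    · simp
    · intro j _ hj
      simp [Pi.single_eq_of_ne hj]
    · intro h
      exact absurd (Finset.mem_univ i) h
  have hn := hN.norm _ _ ha
  have hL : div_L β (y + Pi.single i 1) = div_L β y + β i := by
    rw [map_add, div_L_single]
  obtain ⟨r, hr⟩ := div_imag hN.im hN.lic
    (q := (hin (div_L β y) (β i) - a) - (hin (div_L β y) (β i) - a).re • (1 : Q))
    (by rw [Quaternion.re_sub, Quaternion.re_smul, Quaternion.re_one, smul_eq_mul, mul_one,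
      sub_self])
  refine ⟨r, fun t => ?_⟩
  have h2 := hi _ _ ha _ (div_cellpt_mem β hN.im (y, t + r) hu)
  rw [← h2]
  congr 1
  rw [act_T, div_cellpt, div_cellpt, hL, norm_add_sq_c]
  refine Prod.ext ?_ rfl
  dsimp only
  rw [map_add, hr]
  have h3 : a.re = -‖β i‖ ^ 2 / 2 := by linarith
  have h4 : (-(u + (‖div_L β y‖ ^ 2 + 2 * (hin (div_L β y) (β i)).re + ‖β i‖ ^ 2)) / 2 : ℝ) =
      -(u + ‖div_L β y‖ ^ 2) / 2 - (hin (div_L β y) (β i) - a).re := by
    rw [Quaternion.re_sub, h3]
    ring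
  rw [h4, sub_smul]
  abel

/-- the horizontal derivatives integrate to zero -/
theorem div_field {N : Q → E m → Prop} {β : Fin (4 * m) → E m} {γ : Fin 3 → Q}
    (hN : Cusp N β γ) {u : ℝ} (hu : 0 < u) {φ : Pt m → ℂ} (hφ : ContDiffOn ℝ 1 φ (SD m))
    (hi : Per N φ) (w : E m) :
    ∫ x in Icc (0 : (Fin (4 * m) → ℝ) × (Fin 3 → ℝ)) 1,
      fderiv ℝ φ (cellpt β γ x u) (-hin w (cellpt β γ x u).2, w) = 0 := by
  obtain ⟨α, hα⟩ := div_coord hN.li w
  obtain ⟨P, hPc, hP⟩ := div_inv hN.im hN.lic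
  have hhin : Continuous (fun y : Fin (4 * m) → ℝ => hin w (div_L β y)) := by
    unfold hin
    refine continuous_finsetSum _ fun k _ => ?_
    refine continuous_const.mul (Continuous.star ?_)
    exact (PiLp.continuous_apply 2 _ k).comp (div_L β).continuous
  have hs : Continuous (fun y : Fin (4 * m) → ℝ =>
      P (-hin w (div_L β y) - (-hin w (div_L β y)).re • (1 : Q))) := by
    refine hPc.comp (hhin.neg.sub ?_)
    exact (Quaternion.continuous_re.comp hhin.neg).smul continuous_const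
  have key := div_cell (div_contDiff_lf β hN.im hu hφ) (div_per_t hN hu hi)
    (div_per_i hN hu hi) α hs
  rw [← key]
  refine integral_congr_ae (Filter.Eventually.of_forall fun x => ?_)
  beta_reduce
  rw [div_fderiv_lf β hN.im hu hφ]
  congr 1
  rw [hα, hP _ (by rw [Quaternion.re_sub, Quaternion.re_smul, Quaternion.re_one, smul_eq_mul,
    mul_one, sub_self])]
  refine Prod.ext ?_ rfl
  have h2 : (cellpt β γ x u).2 = div_L β x.1 := by rw [div_cellpt]
  have h3 : (hin (div_L β x.1) w).re = (hin w (div_L β x.1)).re := by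
    rw [← star_hin w (div_L β x.1), Quaternion.re_star]
  rw [h2]
  rw [h3, Quaternion.re_neg]
  abel_nf

theorem st_DIV : ST_DIV := by
  intro m N β γ hN φ hφ hi u hu e
  exact div_field hN hu hφ hi e

end

end Pool.Agent.Helper19.Qh
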